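import Mathlib

/-!
For every n ≥ 2 and every degree d ≥ 2 there is a holomorphic self-map of the complex projective
space of dimension n, of degree d, none of whose fixed points is repelling: at each fixed point the
derivative has an eigenvalue of modulus less than one (and it never has the eigenvalue one).
-/

open MvPolynomial Filter Topology

namespace Pool.Agent.Results.MP_10bb55_an.EveryDegreeEveryDimension

/-- The point of `ℂⁿ⁺¹` with `i`-th coordinate `1` and remaining coordinates `u`: the standard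
affine chart number `i` of the projective space of dimension `n`. -/
noncomputable def pt {n : ℕ} (i : Fin (n + 1)) (u : Fin n → ℂ) : Fin (n + 1) → ℂ :=
  Fin.insertNth i 1 u

/-- The map `[F₀ : ... : Fₙ]` read in the chart number `i` on both sides. -/
noncomputable def chartMap {n : ℕ} (F : Fin (n + 1) → MvPolynomial (Fin (n + 1)) ℂ)
    (i : Fin (n + 1)) (u : Fin n → ℂ) : Fin n → ℂ :=
  fun j => eval (pt i u) (F (i.succAbove j)) / eval (pt i u) (F i)

/-- The point with coordinate `u` in the chart `i` is fixed by `[F₀ : ... : Fₙ]`. -/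
def IsFixed {n : ℕ} (F : Fin (n + 1) → MvPolynomial (Fin (n + 1)) ℂ) (i : Fin (n + 1))
    (u : Fin n → ℂ) : Prop :=
  eval (pt i u) (F i) ≠ 0 ∧ chartMap F i u = u

section
variable {ι : Type} [DecidableEq ι] (a b L : ι) (e : ℕ) (m : ℂ)

noncomputable def F (k : ι) : MvPolynomial ι ℂ :=
  if k = a then X a * X L ^ (e + 1) + C m * (X b ^ (e + 2) - X L ^ (e + 2))
  else if k = b then X b * X L ^ (e + 1) + C m * (X a ^ (e + 2) - X L ^ (e + 2))
  else X k ^ (e + 2)

def f (v : ι → ℂ) (k : ι) : ℂ :=
  if k = a then v a * v L ^ (e + 1) + m * (v b ^ (e + 2) - v L ^ (e + 2))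
  else if k = b then v b * v L ^ (e + 1) + m * (v a ^ (e + 2) - v L ^ (e + 2))
  else v k ^ (e + 2)

def D (v w : ι → ℂ) (k : ι) : ℂ :=
  if k = a then w a * v L ^ (e + 1) + v a * ((e + 1) * v L ^ e * w L)
      + m * ((e + 2) * v b ^ (e + 1) * w b - (e + 2) * v L ^ (e + 1) * w L)
  else if k = b then w b * v L ^ (e + 1) + v b * ((e + 1) * v L ^ e * w L)
      + m * ((e + 2) * v a ^ (e + 1) * w a - (e + 2) * v L ^ (e + 1) * w L)
  else (e + 2) * v k ^ (e + 1) * w k

lemma eval_F (v : ι → ℂ) (k : ι) : eval v (F a b L e m k) = f a b L e m v k := by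
  unfold F f
  split_ifs <;> simp

lemma F_hom (k : ι) : (F a b L e m k).IsHomogeneous (e + 2) := by
  have hX : ∀ k : ι, (X k ^ (e + 2) : MvPolynomial ι ℂ).IsHomogeneous (e + 2) := fun k => by
    simpa using (isHomogeneous_X ℂ k).pow (e + 2)
  have hX2 : ∀ k l : ι, (X k * X l ^ (e + 1) : MvPolynomial ι ℂ).IsHomogeneous (e + 2) :=
    fun k l => by
      have h := (isHomogeneous_X ℂ k).mul ((isHomogeneous_X ℂ l).pow (e + 1))
      have h2 : 1 + 1 * (e + 1) = e + 2 := by ring
      rwa [h2] at h
  unfold F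
  split_ifs
  · exact (hX2 a L).add (((hX b).sub (hX L)).C_mul m)
  · exact (hX2 b L).add (((hX a).sub (hX L)).C_mul m)
  · exact hX k

lemma hasDeriv (v w : ι → ℂ) (k : ι) :
    HasDerivAt (fun s : ℂ => f a b L e m (v + s • w) k) (D a b L e m v w k) 0 := by
  have h1 : ∀ l : ι, HasDerivAt (fun s : ℂ => (v + s • w) l) (w l) 0 := by
    intro l
    simpa using ((hasDerivAt_id (0 : ℂ)).mul_const (w l)).const_add (v l)
  have h2 : ∀ (l : ι) (p : ℕ), HasDerivAt (fun s : ℂ => (v + s • w) l ^ (p + 1))
      ((p + 1 : ℂ) * v l ^ p * w l) 0 := by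
    intro l p
    have := (h1 l).fun_pow (p + 1)
    simpa using this
  unfold f D
  split_ifs with ha hb
  · have := ((h1 a).fun_mul (h2 L e)).fun_add (((h2 b (e + 1)).fun_sub (h2 L (e + 1))).const_mul m)
    refine this.congr_deriv ?_
    simp only [zero_smul, add_zero]
    push_cast
    ring
  · have := ((h1 b).fun_mul (h2 L e)).fun_add (((h2 a (e + 1)).fun_sub (h2 L (e + 1))).const_mul m)
    refine this.congr_deriv ?_
    simp only [zero_smul, add_zero]
    push_cast
    ring
  · refine (h2 k (e + 1)).congr_deriv ?_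
    push_cast
    ring

lemma D_sub (v w : ι → ℂ) (c : ℂ) (k : ι) :
    D a b L e m v (w - c • v) k = D a b L e m v w k - c * ((e + 2) * f a b L e m v k) := by
  unfold D f
  split_ifs <;> simp only [Pi.sub_apply, Pi.smul_apply, smul_eq_mul] <;> ring

variable {a b L e m}

/-- The kernel vector at a point of the hyperplane at infinity. -/
lemma eig_inf [Fintype ι] (haL : L ≠ a) (hbL : L ≠ b) (v : ι → ℂ) (l : ℂ) (hl : l ≠ 0)
    (h : ∀ k, f a b L e m v k = l * v k) (ht : v L = 0) :
    ∃ w : ι → ℂ, (∀ c : ℂ, w ≠ c • v) ∧ ∀ k, D a b L e m v w k = 0 := by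
  let T : (ι → ℂ) →ₗ[ℂ] (ι → ℂ) :=
    { toFun := fun w k => D a b L e m v w k
      map_add' := by
        intro x y
        ext k
        simp only [D, Pi.add_apply]
        split_ifs <;> ring
      map_smul' := by
        intro c x
        ext k
        simp only [D, Pi.smul_apply, smul_eq_mul, RingHom.id_apply]
        split_ifs <;> ring }
  have hTL : ∀ w, T w L = 0 := by
    intro w
    show D a b L e m v w L = 0
    simp [D, haL, hbL, ht]
  have hns : ¬ Function.Surjective T := by
    intro hs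
    obtain ⟨w, hw⟩ := hs (Pi.single L 1)
    have := hTL w
    rw [hw] at this
    simp at this
  have hni : ¬ Function.Injective T := fun hi => hns (LinearMap.injective_iff_surjective.mp hi)
  rw [← LinearMap.ker_eq_bot] at hni
  obtain ⟨w, hw, hw0⟩ := Submodule.exists_mem_ne_zero_of_ne_bot hni
  have hw' : ∀ k, D a b L e m v w k = 0 := fun k => congrFun (LinearMap.mem_ker.mp hw) k
  refine ⟨w, ?_, hw'⟩
  intro c hc
  have he : (e + 2 : ℂ) ≠ 0 := by exact_mod_cast (by omega : e + 2 ≠ 0)
  have h1 : ∀ k, c * v k = 0 := by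
    intro k
    have h2 := D_sub a b L e m v w c k
    have h3 : w - c • v = 0 := by rw [hc, sub_self]
    have h4 : D a b L e m v 0 k = 0 := by simp [D]
    rw [h3, h4, hw' k, h k] at h2
    have h5 : c * ((e + 2) * (l * v k)) = 0 := by linear_combination h2
    have h6 : ((e + 2 : ℂ) * l) * (c * v k) = 0 := by linear_combination h5
    rcases mul_eq_zero.mp h6 with h7 | h7
    · exact absurd h7 (mul_ne_zero he hl)
    · exact h7
  apply hw0
  rw [hc]
  ext k
  simpa using h1 k

lemma fin_facts (haL : L ≠ a) (hbL : L ≠ b) (hab : b ≠ a) (hm : m ≠ 0) (v : ι → ℂ) (l : ℂ)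
    (h : ∀ k, f a b L e m v k = l * v k) (ht : v L ≠ 0) :
    l = v L ^ (e + 1) ∧ v b ^ (e + 2) = v L ^ (e + 2) ∧ v a ^ (e + 2) = v L ^ (e + 2) := by
  have hL := h L
  have ha := h a
  have hb := h b
  simp only [f, haL, hbL, hab, if_true, if_false] at hL ha hb
  have h1 : l = v L ^ (e + 1) := by
    apply mul_right_cancel₀ ht
    rw [← hL]
    ring
  refine ⟨h1, ?_, ?_⟩
  · have : m * (v b ^ (e + 2) - v L ^ (e + 2)) = 0 := by
      rw [h1] at ha
      linear_combination ha
    simpa [hm, sub_eq_zero] using this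
  · have : m * (v a ^ (e + 2) - v L ^ (e + 2)) = 0 := by
      rw [h1] at hb
      linear_combination hb
    simpa [hm, sub_eq_zero] using this

lemma eig_fin (haL : L ≠ a) (hbL : L ≠ b) (hab : b ≠ a) (hm : m ≠ 0)
    (hs : ∀ s : ℂ, s ^ (2 * (e + 2)) = (m * (e + 2)) ^ (2 * (e + 2)) →
      ‖1 + s‖ < 1 ∨ ‖1 - s‖ < 1)
    (v : ι → ℂ) (l : ℂ) (hl : l ≠ 0)
    (h : ∀ k, f a b L e m v k = l * v k) (ht : v L ≠ 0) :
    ∃ (w : ι → ℂ) (μ : ℂ), ‖μ‖ < 1 ∧ (∀ c : ℂ, w ≠ c • v) ∧
      ∀ k, D a b L e m v w k = μ * l * w k := by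
  obtain ⟨h1, h2, h3⟩ := fin_facts haL hbL hab hm v l h ht
  have he : (e + 2 : ℂ) ≠ 0 := by exact_mod_cast (by omega : e + 2 ≠ 0)
  have hvb : v b ≠ 0 := by
    intro h0
    rw [h0] at h2
    exact pow_ne_zero (e + 2) ht (by rw [← h2]; simp)
  have hva : v a ≠ 0 := by
    intro h0
    rw [h0] at h3
    exact pow_ne_zero (e + 2) ht (by rw [← h3]; simp)
  set A : ℂ := m * ((e + 2) * v b ^ (e + 1)) / l with hA
  set B : ℂ := m * ((e + 2) * v a ^ (e + 1)) / l with hB
  have hA0 : A ≠ 0 := by
    rw [hA]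
    exact div_ne_zero (mul_ne_zero hm (mul_ne_zero he (pow_ne_zero _ hvb))) hl
  obtain ⟨s, hss⟩ := IsAlgClosed.exists_pow_nat_eq (A * B) (n := 2) (by norm_num)
  have hsp : s ^ (2 * (e + 2)) = (m * (e + 2)) ^ (2 * (e + 2)) := by
    rw [pow_mul, hss, hA, hB, h1]
    have hL1 : v L ^ (e + 1) ≠ 0 := pow_ne_zero _ ht
    have e1 : (m * ((e + 2) * v b ^ (e + 1)) / v L ^ (e + 1) *
        (m * ((e + 2) * v a ^ (e + 1)) / v L ^ (e + 1))) ^ (e + 2)
        = (m * (e + 2)) ^ (2 * (e + 2)) * ((v b ^ (e + 2)) ^ (e + 1) * (v a ^ (e + 2)) ^ (e + 1))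
          / ((v L ^ (e + 2)) ^ (e + 1) * (v L ^ (e + 2)) ^ (e + 1)) := by
      rw [pow_mul (m * (e + 2 : ℂ)) 2 (e + 2), ← mul_pow (v b ^ (e + 2)), ← mul_pow (v L ^ (e + 2)),
        ← mul_pow (v b), ← mul_pow (v L), pow_right_comm (v b * v a), pow_right_comm (v L * v L),
        ← mul_pow, ← div_pow]
      congr 1
      field_simp
      ring
    rw [e1, h2, h3]
    have : (v L ^ (e + 2)) ^ (e + 1) * (v L ^ (e + 2)) ^ (e + 1) ≠ 0 :=
      mul_ne_zero (pow_ne_zero _ (pow_ne_zero _ ht)) (pow_ne_zero _ (pow_ne_zero _ ht))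
    rw [mul_div_assoc, div_self this, mul_one]
  have key : ∀ σ : ℂ, σ ^ 2 = A * B → ‖1 + σ‖ < 1 → ∃ (w : ι → ℂ) (μ : ℂ), ‖μ‖ < 1 ∧
      (∀ c : ℂ, w ≠ c • v) ∧ ∀ k, D a b L e m v w k = μ * l * w k := by
    intro σ hσ hn
    refine ⟨fun k => if k = a then A else if k = b then σ else 0, 1 + σ, hn, ?_, ?_⟩
    · intro c hc
      have c1 := congrFun hc L
      have c2 := congrFun hc a
      simp only [haL, hbL, if_false, if_true, Pi.smul_apply, smul_eq_mul] at c1 c2
      have c3 : c = 0 := by
        rcases mul_eq_zero.mp c1.symm with h0 | h0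
        · exact h0
        · exact absurd h0 ht
      rw [c3, zero_mul] at c2
      exact hA0 c2
    · intro k
      by_cases ka : k = a
      · subst ka
        simp only [D, if_true, haL, hbL, hab, if_false]
        have e2 : A * l = m * ((e + 2) * v b ^ (e + 1)) := by
          rw [hA]; field_simp
        rw [← h1]
        linear_combination (-σ) * e2
      · by_cases kb : k = b
        · subst kb
          simp only [D, if_true, haL, hbL, hab, if_false]
          have e2 : B * l = m * ((e + 2) * v a ^ (e + 1)) := by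
            rw [hB]; field_simp
          rw [← h1]
          linear_combination (-A) * e2 - l * hσ
        · simp [D, ka, kb]
  rcases hs s hsp with hn | hn
  · exact key s hss hn
  · exact key (-s) (by rw [neg_sq, hss]) (by rw [← sub_eq_add_neg]; exact hn)

/-- Non-degeneracy: `l` is never an eigenvalue of the derivative of the lift. -/
lemma nondeg (haL : L ≠ a) (hbL : L ≠ b) (hab : b ≠ a) (hm : m ≠ 0)
    (v : ι → ℂ) (l : ℂ) (hl : l ≠ 0)
    (h : ∀ k, f a b L e m v k = l * v k) (w : ι → ℂ)
    (hw : ∀ k, D a b L e m v w k = l * w k) : w = 0 := by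
  have he : (e + 2 : ℂ) ≠ 0 := by exact_mod_cast (by omega : e + 2 ≠ 0)
  have he1 : (e + 2 : ℂ) - 1 ≠ 0 := by
    have : (e + 1 : ℂ) ≠ 0 := by exact_mod_cast (by omega : e + 1 ≠ 0)
    intro h0
    apply this
    linear_combination h0
  have he2 : (e + 2 : ℂ) ^ 2 - 1 ≠ 0 := by
    have h3 : (e + 3 : ℂ) ≠ 0 := by exact_mod_cast (by omega : e + 3 ≠ 0)
    have : (e + 1 : ℂ) ≠ 0 := by exact_mod_cast (by omega : e + 1 ≠ 0)
    intro h0
    apply mul_ne_zero this h3
    linear_combination h0
  have hrest : ∀ k, k ≠ a → k ≠ b → w k = 0 := by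
    intro k ka kb
    have h1 := h k
    have h2 := hw k
    simp only [f, D, ka, kb, if_false] at h1 h2
    by_cases hv : v k = 0
    · rw [hv] at h2
      have h3 : l * w k = 0 := by rw [← h2]; simp
      exact (mul_eq_zero.mp h3).resolve_left hl
    · have h3 : v k ^ (e + 1) = l := by
        apply mul_right_cancel₀ hv
        rw [← h1]
        ring
      rw [h3] at h2
      have h4 : (((e + 2 : ℂ) - 1) * l) * w k = 0 := by linear_combination h2
      exact (mul_eq_zero.mp h4).resolve_left (mul_ne_zero he1 hl)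
  have hwL : w L = 0 := hrest L haL hbL
  have hwa := hw a
  have hwb := hw b
  have hfa := h a
  have hfb := h b
  simp only [f, D, hab, if_true, if_false, hwL] at hwa hwb hfa hfb
  have hboth : w a = 0 ∧ w b = 0 := by
    by_cases ht : v L = 0
    · rw [ht] at hwa hwb hfa hfb
      simp only [ne_eq, Nat.add_eq_zero_iff, one_ne_zero, and_false, not_false_eq_true, zero_pow,
        mul_zero, OfNat.ofNat_ne_zero, zero_add, sub_zero, add_zero] at hwa hwb hfa hfb
      have hprod : (((e + 2 : ℂ) ^ 2 - 1) * l ^ 2) * (v a * v b) * (w a * w b) = 0 := by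
        have e1 : (m * ((e + 2) * v b ^ (e + 1) * w b)) * (m * ((e + 2) * v a ^ (e + 1) * w a))
            * (v a * v b) = (l * w a) * (l * w b) * (v a * v b) := by rw [hwa, hwb]
        have e2 : (m * v b ^ (e + 2)) * (m * v a ^ (e + 2)) = (l * v a) * (l * v b) := by
          rw [hfa, hfb]
        linear_combination e1 - (e + 2 : ℂ) ^ 2 * (w a * w b) * e2
      have hzero : v a = 0 → w a = 0 ∧ w b = 0 := by
        intro h0
        have hb0 : v b = 0 := by
          rw [h0] at hfa
          have : m * v b ^ (e + 2) = 0 := by rw [hfa, mul_zero]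
          exact pow_eq_zero_iff (by omega) |>.mp ((mul_eq_zero.mp this).resolve_left hm)
        rw [hb0] at hwa
        rw [h0] at hwb
        constructor
        · have : l * w a = 0 := by rw [← hwa]; simp
          exact (mul_eq_zero.mp this).resolve_left hl
        · have : l * w b = 0 := by rw [← hwb]; simp
          exact (mul_eq_zero.mp this).resolve_left hl
      have hzero' : v b = 0 → w a = 0 ∧ w b = 0 := by
        intro h0
        apply hzero
        rw [h0] at hfb
        have : m * v a ^ (e + 2) = 0 := by rw [hfb, mul_zero]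
        exact pow_eq_zero_iff (by omega) |>.mp ((mul_eq_zero.mp this).resolve_left hm)
      rcases mul_eq_zero.mp hprod with h1 | h1
      · rcases mul_eq_zero.mp h1 with h2 | h2
        · exact absurd h2 (mul_ne_zero he2 (pow_ne_zero _ hl))
        · rcases mul_eq_zero.mp h2 with h3 | h3
          · exact hzero h3
          · exact hzero' h3
      · rcases mul_eq_zero.mp h1 with h2 | h2
        · refine ⟨h2, ?_⟩
          rw [h2] at hwb
          have : l * w b = 0 := by rw [← hwb]; simp
          exact (mul_eq_zero.mp this).resolve_left hl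
        · refine ⟨?_, h2⟩
          rw [h2] at hwa
          have : l * w a = 0 := by rw [← hwa]; simp
          exact (mul_eq_zero.mp this).resolve_left hl
    · obtain ⟨h1, h2, h3⟩ := fin_facts haL hbL hab hm v l h ht
      have hvb : v b ≠ 0 := by
        intro h0
        rw [h0] at h2
        exact pow_ne_zero (e + 2) ht (by rw [← h2]; simp)
      have hva : v a ≠ 0 := by
        intro h0
        rw [h0] at h3
        exact pow_ne_zero (e + 2) ht (by rw [← h3]; simp)
      rw [← h1] at hwa hwb
      constructor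
      · have e1 : (m * ((e + 2) * v a ^ (e + 1))) * w a = 0 := by linear_combination hwb
        exact (mul_eq_zero.mp e1).resolve_left
          (mul_ne_zero hm (mul_ne_zero he (pow_ne_zero _ hva)))
      · have e1 : (m * ((e + 2) * v b ^ (e + 1))) * w b = 0 := by linear_combination hwa
        exact (mul_eq_zero.mp e1).resolve_left
          (mul_ne_zero hm (mul_ne_zero he (pow_ne_zero _ hvb)))
  ext k
  by_cases ka : k = a
  · rw [ka]; exact hboth.1
  · by_cases kb : k = b
    · rw [kb]; exact hboth.2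
    · exact hrest k ka kb

end

lemma exists_m (e : ℕ) : ∃ m : ℂ, m ≠ 0 ∧
    ∀ s : ℂ, s ^ (2 * (e + 2)) = (m * (e + 2)) ^ (2 * (e + 2)) → ‖1 + s‖ < 1 ∨ ‖1 - s‖ < 1 := by
  have he : (e + 2 : ℂ) ≠ 0 := by exact_mod_cast (by omega : e + 2 ≠ 0)
  obtain ⟨z, hz⟩ := IsAlgClosed.exists_pow_nat_eq ((-1 : ℂ) ^ (e + 3)) (n := 2 * (e + 2))
    (by omega)
  set S : Set ℂ := {σ : ℂ | σ ^ (2 * (e + 2)) = (-1 : ℂ) ^ (e + 3)} with hS
  have hfin : S.Finite := by
    refine (Multiset.finite_toSet (Polynomial.nthRoots (2 * (e + 2)) ((-1 : ℂ) ^ (e + 3)))).subset ?_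
    intro σ hσ
    exact (Polynomial.mem_nthRoots (by omega)).mpr hσ
  have hre : ∀ σ ∈ S, 0 < 2 * |σ.re| := by
    intro σ hσ
    have : σ.re ≠ 0 := by
      intro h0
      have h1 : σ ^ 2 = ((-(σ.im ^ 2) : ℝ) : ℂ) := by
        apply Complex.ext
        · rw [Complex.ofReal_re, sq, Complex.mul_re, h0]; ring
        · rw [Complex.ofReal_im, sq, Complex.mul_im, h0]; ring
      have h2 : σ ^ (2 * (e + 2)) = (((-1) ^ (e + 2) * (σ.im ^ 2) ^ (e + 2) : ℝ) : ℂ) := by
        rw [pow_mul, h1, ← Complex.ofReal_pow]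
        congr 1
        rw [← mul_pow]
        congr 1
        ring
      have h3 : (((-1) ^ (e + 2) * (σ.im ^ 2) ^ (e + 2) : ℝ) : ℂ) = (((-1) ^ (e + 3) : ℝ) : ℂ) := by
        rw [← h2]
        rw [show σ ^ (2 * (e + 2)) = (-1 : ℂ) ^ (e + 3) from hσ]
        push_cast
        rfl
      have h4 := Complex.ofReal_injective h3
      have h5 : (0 : ℝ) ≤ (σ.im ^ 2) ^ (e + 2) := by positivity
      have h6 : ((-1 : ℝ) ^ (e + 2)) * ((-1) ^ (e + 2) * (σ.im ^ 2) ^ (e + 2)) =
          ((-1 : ℝ) ^ (e + 2)) * (-1) ^ (e + 3) := by rw [h4]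
      have h7 : ((-1 : ℝ) ^ (e + 2)) * ((-1) ^ (e + 2)) = 1 := by
        rw [← mul_pow]; norm_num
      have h8 : ((-1 : ℝ) ^ (e + 2)) * (-1) ^ (e + 3) = -1 := by
        rw [pow_succ (-1 : ℝ) (e + 2), ← mul_assoc, h7]; norm_num
      rw [← mul_assoc, h7, h8] at h6
      linarith
    positivity
  have hev : ∀ᶠ t : ℝ in 𝓝[>] (0 : ℝ), ∀ σ ∈ S, t < 2 * |σ.re| := by
    rw [Filter.eventually_all_finite hfin]
    intro σ hσ
    exact nhdsWithin_le_nhds (eventually_lt_nhds (hre σ hσ))
  obtain ⟨t, ht, ht0⟩ := (hev.and (self_mem_nhdsWithin)).exists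
  have ht0' : (0 : ℝ) < t := ht0
  have htc : (t : ℂ) ≠ 0 := by exact_mod_cast ht0'.ne'
  have hz0 : z ≠ 0 := by
    intro h0
    rw [h0, zero_pow (by omega)] at hz
    exact pow_ne_zero (e + 3) (by norm_num : (-1 : ℂ) ≠ 0) hz.symm
  refine ⟨t * z / (e + 2), div_ne_zero (mul_ne_zero htc hz0) he, ?_⟩
  intro s hs
  rw [div_mul_cancel₀ _ he, mul_pow, hz] at hs
  set σ : ℂ := s / t with hσ
  have hsσ : s = t * σ := by rw [hσ]; field_simp
  have hmem : σ ∈ S := by
    show σ ^ (2 * (e + 2)) = (-1 : ℂ) ^ (e + 3)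
    rw [hσ, div_pow, hs]
    field_simp
  have h1 := ht σ hmem
  have hn : ‖σ‖ = 1 := by
    have : ‖σ‖ ^ (2 * (e + 2)) = 1 := by
      rw [← norm_pow, show σ ^ (2 * (e + 2)) = (-1 : ℂ) ^ (e + 3) from hmem]
      simp
    exact (pow_eq_one_iff_of_nonneg (norm_nonneg _) (by omega)).mp this
  have hsq : σ.re ^ 2 + σ.im ^ 2 = 1 := by
    have := Complex.sq_norm σ
    rw [hn, Complex.normSq_apply] at this
    nlinarith
  have hcalc : ∀ τ : ℂ, τ.re ^ 2 + τ.im ^ 2 = 1 → t < -(2 * τ.re) → ‖1 + t * τ‖ < 1 := by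
    intro τ h2 h3
    rw [← sq_lt_one_iff₀ (norm_nonneg _), Complex.sq_norm, Complex.normSq_apply]
    simp only [Complex.add_re, Complex.one_re, Complex.mul_re, Complex.ofReal_re, Complex.ofReal_im,
      Complex.add_im, Complex.one_im, Complex.mul_im, zero_mul, sub_zero, add_zero, zero_add]
    have : (1 + t * τ.re) * (1 + t * τ.re) + t * τ.im * (t * τ.im)
        = 1 + t * (t - -(2 * τ.re)) := by
      linear_combination t ^ 2 * h2
    rw [this]
    have : t * (t - -(2 * τ.re)) < 0 := mul_neg_of_pos_of_neg ht0' (by linarith)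
    linarith
  rcases le_total 0 σ.re with h2 | h2
  · right
    rw [abs_of_nonneg h2] at h1
    have := hcalc (-σ) (by simpa using hsq) (by simpa using h1)
    rw [hsσ]
    simpa [sub_eq_add_neg] using this
  · left
    rw [abs_of_nonpos h2] at h1
    rw [hsσ]
    exact hcalc σ hsq (by linarith)

theorem result : ∀ n : ℕ, 2 ≤ n → ∀ d : ℕ, 2 ≤ d →
    ∃ F : Fin (n + 1) → MvPolynomial (Fin (n + 1)) ℂ,
      (∀ k, (F k).IsHomogeneous d) ∧ (∀ z : Fin (n + 1) → ℂ, (∀ k, eval z (F k) = 0) → z = 0) ∧
      ∀ (i : Fin (n + 1)) (u : Fin n → ℂ), IsFixed F i u →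
        (∃ μ : ℂ, Module.End.HasEigenvalue (fderiv ℂ (chartMap F i) u).toLinearMap μ ∧ ‖μ‖ < 1) ∧
        ¬ Module.End.HasEigenvalue (fderiv ℂ (chartMap F i) u).toLinearMap 1 := by
  intro n hn d hd
  obtain ⟨e, rfl⟩ : ∃ e, d = e + 2 := ⟨d - 2, by omega⟩
  obtain ⟨N, rfl⟩ : ∃ N, n = N + 2 := ⟨n - 2, by omega⟩
  obtain ⟨m, hm, hs⟩ := exists_m e
  let a : Fin (N + 2 + 1) := ⟨0, by omega⟩
  let b : Fin (N + 2 + 1) := ⟨1, by omega⟩
  let L : Fin (N + 2 + 1) := ⟨2, by omega⟩
  have haL : L ≠ a := by simp [L, a]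
  have hbL : L ≠ b := by simp [L, b]
  have hab : b ≠ a := by simp [a, b]
  refine ⟨F a b L e m, F_hom a b L e m, ?_, ?_⟩
  · intro z hz
    simp only [eval_F] at hz
    have hk : ∀ k, k ≠ a → k ≠ b → z k = 0 := by
      intro k ka kb
      have := hz k
      simp only [f, ka, kb, if_false] at this
      exact pow_eq_zero_iff (by omega) |>.mp this
    have hL : z L = 0 := hk L haL hbL
    have ha := hz a
    have hb := hz b
    simp only [f, hab, if_true, if_false, hL] at ha hb
    ext k
    by_cases ka : k = a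
    · rw [ka]
      have : m * z a ^ (e + 2) = 0 := by rw [← hb]; simp
      exact pow_eq_zero_iff (by omega) |>.mp ((mul_eq_zero.mp this).resolve_left hm)
    · by_cases kb : k = b
      · rw [kb]
        have : m * z b ^ (e + 2) = 0 := by rw [← ha]; simp
        exact pow_eq_zero_iff (by omega) |>.mp ((mul_eq_zero.mp this).resolve_left hm)
      · exact hk k ka kb
  · rintro i u ⟨hl, hu⟩
    rw [eval_F] at hl
    set g : (Fin (N + 2 + 1) → ℂ) → Fin (N + 2 + 1) → ℂ := f a b L e m with hg
    have hcm : chartMap (F a b L e m) i =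
        fun u j => g (pt i u) (i.succAbove j) / g (pt i u) i := by
      ext u j
      simp only [chartMap, eval_F, hg]
    rw [hcm] at hu ⊢
    have hvi : pt i u i = 1 := by simp [pt]
    have hvj : ∀ j, pt i u (i.succAbove j) = u j := by simp [pt]
    set v := pt i u with hv
    have hfix : ∀ k, g v k = g v i * v k := by
      intro k
      refine Fin.succAboveCases i ?_ (fun j => ?_) k
      · rw [hvi, mul_one]
      · rw [hvj, ← congrFun hu j]
        exact (mul_div_cancel₀ _ hl).symm
    have hdg : ∀ k, Differentiable ℂ (fun u : Fin (N + 2) → ℂ => g (pt i u) k) := by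
      intro k
      have h : ∀ l, Differentiable ℂ (fun u : Fin (N + 2) → ℂ => pt i u l) := by
        intro l
        refine Fin.succAboveCases i ?_ (fun j => ?_) l
        · simp only [pt, Fin.insertNth_apply_same]
          fun_prop
        · simp only [pt, Fin.insertNth_apply_succAbove]
          fun_prop
      have h0 := h a
      have h1 := h b
      have h2 := h L
      have h3 := h k
      simp only [hg, f]
      split_ifs
      · fun_prop
      · fun_prop
      · fun_prop
    have hd : DifferentiableAt ℂ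
        (fun (u : Fin (N + 2) → ℂ) j => g (pt i u) (i.succAbove j) / g (pt i u) i) u :=
      differentiableAt_pi.mpr (fun j => by
        simp only [div_eq_mul_inv]
        exact (hdg _ u).mul ((hdg i u).inv hl))
    -- derivative of the chart map in the direction `e'`
    have hder : ∀ e' : Fin (N + 2) → ℂ,
        fderiv ℂ (fun (u : Fin (N + 2) → ℂ) j => g (pt i u) (i.succAbove j) / g (pt i u) i) u e' =
        fun j => (D a b L e m v (Fin.insertNth i 0 e') (i.succAbove j)
          - v (i.succAbove j) * D a b L e m v (Fin.insertNth i 0 e') i) / g v i := by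
      intro e'
      set w' : Fin (N + 2 + 1) → ℂ := Fin.insertNth i 0 e' with hw'
      have hline : ∀ s : ℂ, pt i (u + s • e') = v + s • w' := by
        intro s
        ext k
        refine Fin.succAboveCases i ?_ (fun j => ?_) k
        · simp [pt, hv, hw']
        · simp [pt, hv, hw']
      have hl1 : HasDerivAt (fun s : ℂ => u + s • e') e' 0 := by
        simpa using ((hasDerivAt_id (0 : ℂ)).smul_const e').const_add u
      have hc := HasFDerivAt.comp_hasDerivAt_of_eq (x := (0 : ℂ)) hd.hasFDerivAt hl1 (by simp)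
      have hq : ∀ k, HasDerivAt (fun s : ℂ => g (v + s • w') k) (D a b L e m v w' k) 0 :=
        fun k => hasDeriv a b L e m v w' k
      refine hc.unique ?_
      rw [hasDerivAt_pi]
      intro j
      simp only [Function.comp, hline]
      refine ((hq (i.succAbove j)).fun_div (hq i) (by simpa using hl)).congr_deriv ?_
      simp only [zero_smul, add_zero]
      rw [hfix (i.succAbove j)]
      field_simp
    have hsub : ∀ (w : Fin (N + 2 + 1) → ℂ) (c : ℂ) (k : Fin (N + 2 + 1)),
        D a b L e m v (w - c • v) k = D a b L e m v w k - c * ((e + 2) * g v k) :=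
      fun w c k => D_sub a b L e m v w c k
    constructor
    · have hexw : ∃ (w : Fin (N + 2 + 1) → ℂ) (μ : ℂ), ‖μ‖ < 1 ∧ (∀ c : ℂ, w ≠ c • v) ∧
          ∀ k, D a b L e m v w k = μ * g v i * w k := by
        by_cases ht : v L = 0
        · obtain ⟨w, h1, h2⟩ := eig_inf haL hbL v (g v i) hl hfix ht
          exact ⟨w, 0, by simp, h1, fun k => by rw [h2 k]; ring⟩
        · exact eig_fin haL hbL hab hm hs v (g v i) hl hfix ht
      obtain ⟨w, μ, h1, h2, h3⟩ := hexw
      refine ⟨μ, ?_, h1⟩
      set w' := w - w i • v with hw'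
      have hw'i : w' i = 0 := by simp [hw', hvi]
      let e' : Fin (N + 2) → ℂ := fun j => w' (i.succAbove j)
      have hins : (Fin.insertNth i 0 e' : Fin (N + 2 + 1) → ℂ) = w' := by
        ext k
        refine Fin.succAboveCases i ?_ (fun j => ?_) k
        · rw [hw'i]; simp
        · simp [e']
      have he : e' ≠ 0 := by
        intro h0
        apply h2 (w i)
        rw [← sub_eq_zero]
        ext k
        refine Fin.succAboveCases i hw'i (fun j => ?_) k
        exact congrFun h0 j
      refine Module.End.hasEigenvalue_of_hasEigenvector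
        (x := e') ⟨Module.End.mem_eigenspace_iff.mpr ?_, he⟩
      show fderiv ℂ (fun (u : Fin (N + 2) → ℂ) j => g (pt i u) (i.succAbove j) / g (pt i u) i) u e'
        = μ • e'
      rw [hder e', hins]
      ext j
      simp only [Pi.smul_apply, smul_eq_mul, e', hw', hsub, h3, hfix (i.succAbove j), hvi,
        Pi.sub_apply]
      field_simp
      ring
    · intro hev
      obtain ⟨e', he'⟩ := hev.exists_hasEigenvector
      have h1 := he'.apply_eq_smul
      have h2 := he'.2
      rw [one_smul] at h1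
      change fderiv ℂ (fun (u : Fin (N + 2) → ℂ) j =>
        g (pt i u) (i.succAbove j) / g (pt i u) i) u e' = e' at h1
      rw [hder e'] at h1
      set w' : Fin (N + 2 + 1) → ℂ := Fin.insertNth i 0 e' with hw'
      set c := D a b L e m v w' i with hc
      have h4 : ∀ k, D a b L e m v w' k = g v i * w' k + c * v k := by
        intro k
        refine Fin.succAboveCases i ?_ (fun j => ?_) k
        · rw [hvi]
          simp [hw', hc]
        · have h5 := congrFun h1 j
          have h6 : w' (i.succAbove j) = e' j := by simp [hw']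
          rw [h6]
          rw [div_eq_iff hl] at h5
          linear_combination h5
      have he1 : (e + 1 : ℂ) ≠ 0 := by exact_mod_cast (by omega : e + 1 ≠ 0)
      have h7 : w' - (c / ((e + 1) * g v i)) • v = 0 := by
        refine nondeg haL hbL hab hm v (g v i) hl hfix _ ?_
        intro k
        rw [hsub, h4 k, hfix k]
        simp only [Pi.sub_apply, Pi.smul_apply, smul_eq_mul]
        field_simp
        ring
      have h8 := congrFun h7 i
      have h9 : w' i = 0 := by simp [hw']
      simp only [Pi.sub_apply, Pi.smul_apply, smul_eq_mul, h9, hvi, mul_one, zero_sub,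
        Pi.zero_apply, neg_eq_zero] at h8
      rw [h8, zero_smul, sub_zero] at h7
      apply h2
      ext j
      have := congrFun h7 (i.succAbove j)
      simpa [hw'] using this

end Pool.Agent.Results.MP_10bb55_an.EveryDegreeEveryDimension
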